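import Pool.Agent.N572.HB.Nrm

/-!
# Degree and length of integral polynomials: the calculus `Bd`
-/

set_option autoImplicit false

namespace Pool.Agent.P8H80.ET

open MvPolynomial Pool.Agent.N572.HB

variable {σ : Type}

/-- total degree at most `d`, sum of the absolute values of the coefficients at most `N` -/
def Bd (d N : ℕ) (P : MvPolynomial σ ℤ) : Prop := P.totalDegree ≤ d ∧ nrm P ≤ N

variable {d N d' N' : ℕ} {P Q : MvPolynomial σ ℤ}

theorem Bd.mono (h : Bd d N P) (hd : d ≤ d') (hN : N ≤ N') : Bd d' N' P :=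
  ⟨h.1.trans hd, h.2.trans hN⟩

theorem Bd.add (h : Bd d N P) (h' : Bd d' N' Q) : Bd (max d d') (N + N') (P + Q) :=
  ⟨(totalDegree_add _ _).trans (max_le_max h.1 h'.1), (nrm_add _ _).trans (Nat.add_le_add h.2 h'.2)⟩

theorem Bd.neg (h : Bd d N P) : Bd d N (-P) := ⟨(totalDegree_neg P).le.trans h.1, (nrm_neg P).le.trans h.2⟩

theorem Bd.sub (h : Bd d N P) (h' : Bd d' N' Q) : Bd (max d d') (N + N') (P - Q) := by
  rw [sub_eq_add_neg]
  exact h.add h'.neg

theorem Bd.mul (h : Bd d N P) (h' : Bd d' N' Q) : Bd (d + d') (N * N') (P * Q) :=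
  ⟨(totalDegree_mul _ _).trans (Nat.add_le_add h.1 h'.1), (nrm_mul _ _).trans (Nat.mul_le_mul h.2 h'.2)⟩

theorem Bd.X (i : σ) : Bd 1 1 (MvPolynomial.X i : MvPolynomial σ ℤ) := by
  refine ⟨(totalDegree_X i).le, ?_⟩
  exact nrm_monomial _ 1

theorem Bd.C (a : ℤ) : Bd 0 a.natAbs (MvPolynomial.C a : MvPolynomial σ ℤ) :=
  ⟨(totalDegree_C a).le, nrm_C a⟩

theorem Bd.pow (h : Bd d N P) (k : ℕ) : Bd (k * d) (N ^ k) (P ^ k) :=
  ⟨(totalDegree_pow _ _).trans (Nat.mul_le_mul_left _ h.1), (nrm_pow _ _).trans (Nat.pow_le_pow_left h.2 _)⟩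

theorem Bd.zero : Bd d N (0 : MvPolynomial σ ℤ) := by
  refine ⟨?_, ?_⟩
  · rw [totalDegree_zero]; exact Nat.zero_le _
  · rw [nrm_zero]; exact Nat.zero_le _

theorem Bd.sum {ι : Type} (s : Finset ι) (f : ι → MvPolynomial σ ℤ) (M : ι → ℕ)
    (h : ∀ i ∈ s, Bd d (M i) (f i)) : Bd d (∑ i ∈ s, M i) (∑ i ∈ s, f i) := by
  classical
  induction s using Finset.induction_on with
  | empty => simpa using Bd.zero
  | insert a s ha ih =>
    rw [Finset.sum_insert ha, Finset.sum_insert ha]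
    exact ((h a (Finset.mem_insert_self _ _)).add (ih fun i hi => h i (Finset.mem_insert_of_mem hi))).mono
      (max_le le_rfl le_rfl) le_rfl

theorem Bd.abs_sum (h : Bd d N P) : ∑ m ∈ P.support, |P.coeff m| ≤ (N : ℤ) := by
  have h1 : ∑ m ∈ P.support, |P.coeff m| = ((nrm P : ℕ) : ℤ) := by
    unfold nrm
    push_cast
    rfl
  rw [h1]
  exact_mod_cast h.2

/-! ### Reduction modulo the equation of the curve -/

/-- `4 X ^ 3 - g₂ X - g₃` -/
noncomputable def cub : MvPolynomial (Fin 3) ℤ :=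
  MvPolynomial.C 4 * MvPolynomial.X 0 ^ 3 - MvPolynomial.X 1 * MvPolynomial.X 0 - MvPolynomial.X 2

theorem cub_bd : Bd 3 6 cub := by
  have h := (((Bd.C (σ := Fin 3) 4).mul ((Bd.X 0).pow 3)).sub ((Bd.X 1).mul (Bd.X 0))).sub (Bd.X (2 : Fin 3))
  exact h.mono (by norm_num) (by norm_num)

theorem cub_val (x g2 g3 : ℂ) : aeval ![x, g2, g3] cub = 4 * x ^ 3 - g2 * x - g3 := by
  unfold cub
  simp only [map_sub, map_mul, map_pow, aeval_X, aeval_C]
  simp

/-- the reduction of a monomial -/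
noncomputable def red (d : Fin 4 →₀ ℕ) : MvPolynomial (Fin 3) ℤ :=
  MvPolynomial.X 0 ^ d 0 * cub ^ (d 1 / 2) * MvPolynomial.X 1 ^ d 2 * MvPolynomial.X 2 ^ d 3

theorem red_bd (d : Fin 4 →₀ ℕ) (D : ℕ) (hd : d 0 + d 1 + d 2 + d 3 ≤ D) : Bd (2 * D) (6 ^ D) (red d) := by
  have h := ((((Bd.X (0 : Fin 3)).pow (d 0)).mul (cub_bd.pow (d 1 / 2))).mul ((Bd.X 1).pow (d 2))).mul
    ((Bd.X 2).pow (d 3))
  refine h.mono (by omega) ?_
  rw [one_pow, one_pow, one_pow, one_mul, mul_one, mul_one]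
  exact Nat.pow_le_pow_right (by norm_num) (by omega)

theorem red_val (d : Fin 4 →₀ ℕ) (x g2 g3 : ℂ) : aeval ![x, g2, g3] (red d) =
    x ^ d 0 * (4 * x ^ 3 - g2 * x - g3) ^ (d 1 / 2) * g2 ^ d 2 * g3 ^ d 3 := by
  unfold red
  rw [map_mul, map_mul, map_mul, map_pow, map_pow, map_pow, map_pow, cub_val, aeval_X, aeval_X, aeval_X]
  simp

theorem exists_AB (P : MvPolynomial (Fin 4) ℤ) (D H : ℕ) (hP : Bd D H P) :
    ∃ A B : MvPolynomial (Fin 3) ℤ, Bd (2 * D) (H * 6 ^ D) A ∧ Bd (2 * D) (H * 6 ^ D) B ∧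
      ∀ x y g2 g3 : ℂ, y ^ 2 = 4 * x ^ 3 - g2 * x - g3 →
        aeval ![x, y, g2, g3] P = aeval ![x, g2, g3] A + aeval ![x, g2, g3] B * y := by
  classical
  have hdeg : ∀ d ∈ P.support, d 0 + d 1 + d 2 + d 3 ≤ D := by
    intro d hd
    have h1 := (le_totalDegree hd).trans hP.1
    rw [Finsupp.sum_fintype _ _ (fun _ => rfl), Fin.sum_univ_four] at h1
    exact h1
  have key : ∀ s ⊆ P.support, Bd (2 * D) (H * 6 ^ D)
      (∑ d ∈ s, MvPolynomial.C (P.coeff d) * red d) := by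
    intro s hs
    have h1 := Bd.sum (d := 2 * D) s (fun d => MvPolynomial.C (P.coeff d) * red d)
      (fun d => (P.coeff d).natAbs * 6 ^ D) fun d hd => by
        have := (Bd.C (σ := Fin 3) (P.coeff d)).mul (red_bd d D (hdeg d (hs hd)))
        rwa [zero_add] at this
    refine h1.mono le_rfl ?_
    rw [← Finset.sum_mul]
    refine Nat.mul_le_mul_right _ (le_trans ?_ hP.2)
    exact Finset.sum_le_sum_of_subset hs
  refine ⟨∑ d ∈ P.support.filter (fun d => d 1 % 2 = 0), MvPolynomial.C (P.coeff d) * red d,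
    ∑ d ∈ P.support.filter (fun d => ¬ d 1 % 2 = 0), MvPolynomial.C (P.coeff d) * red d,
    key _ (Finset.filter_subset _ _), key _ (Finset.filter_subset _ _), ?_⟩
  intro x y g2 g3 hy
  rw [aeval_def, eval₂_eq', ← Finset.sum_filter_add_sum_filter_not P.support (fun d => d 1 % 2 = 0),
    map_sum, map_sum, Finset.sum_mul]
  congr 1
  · refine Finset.sum_congr rfl fun d hd => ?_
    have h2 := (Finset.mem_filter.1 hd).2
    have h3 : d 1 = 2 * (d 1 / 2) := by omega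
    rw [map_mul, red_val, aeval_C, Fin.prod_univ_four]
    have h4 : y ^ d 1 = (4 * x ^ 3 - g2 * x - g3) ^ (d 1 / 2) := by
      rw [← hy, ← pow_mul, ← h3]
    simp only [Matrix.cons_val_zero, Matrix.cons_val_one, Matrix.cons_val]
    rw [h4]
  · refine Finset.sum_congr rfl fun d hd => ?_
    have h2 := (Finset.mem_filter.1 hd).2
    have h3 : d 1 = 2 * (d 1 / 2) + 1 := by omega
    rw [map_mul, red_val, aeval_C, Fin.prod_univ_four]
    have h4 : y ^ d 1 = (4 * x ^ 3 - g2 * x - g3) ^ (d 1 / 2) * y := by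
      rw [← hy, ← pow_mul, ← pow_succ, ← h3]
    simp only [Matrix.cons_val_zero, Matrix.cons_val_one, Matrix.cons_val]
    rw [h4]
    ring

end Pool.Agent.P8H80.ET
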