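import Pool.Agent.P8H10.ET.StmB
import Pool.Agent.P8H80.ET.Bd

/-!
# Project ET: packages `DIV1` and `DIV2`, the quantitative form of the division functions
-/

set_option autoImplicit false

open Filter Topology Pool.Agent.W245.EB H667R3
open scoped PeriodPair

namespace Pool.Agent.P8H80.ET

open MvPolynomial (aeval)

/-- functions which are integral polynomials of size `b` in `℘`, `℘'`, `g₂`, `g₃` up to a power of `4 ℘'` -/
def SmB (L : PeriodPair) (b : ℕ) (f : ℂ → ℂ) : Prop :=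
  ∃ (e a : ℕ) (P : MvPolynomial (Fin 4) ℤ), e ≤ b ∧ a ≤ b ∧ Bd b (2 ^ b) P ∧ ∀ z, 2 * z ∉ L.lattice →
    4 ^ a * f z * ℘'[L] z ^ e = aeval ![℘[L] z, ℘'[L] z, L.g₂, L.g₃] P

variable {L : PeriodPair} {b b' : ℕ} {f g : ℂ → ℂ}

theorem SmB.congr (hf : SmB L b f) (h : ∀ z, 2 * z ∉ L.lattice → g z = f z) : SmB L b g := by
  obtain ⟨e, a, P, he, ha, hP, h1⟩ := hf
  exact ⟨e, a, P, he, ha, hP, fun z hz => by rw [h z hz, h1 z hz]⟩

theorem SmB.mono (hf : SmB L b f) (h : b ≤ b') : SmB L b' f := by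
  obtain ⟨e, a, P, he, ha, hP, h1⟩ := hf
  exact ⟨e, a, P, he.trans h, ha.trans h, hP.mono h (Nat.pow_le_pow_right (by norm_num) h), h1⟩

theorem SmB.mul (hf : SmB L b f) (hg : SmB L b' g) : SmB L (b + b') (fun z => f z * g z) := by
  obtain ⟨e, a, P, he, ha, hP, h1⟩ := hf
  obtain ⟨e', a', P', he', ha', hP', h1'⟩ := hg
  refine ⟨e + e', a + a', P * P', by omega, by omega, ?_, fun z hz => ?_⟩
  · rw [pow_add]
    exact hP.mul hP'
  · rw [map_mul, ← h1 z hz, ← h1' z hz]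
    ring

theorem SmB.sub (hf : SmB L b f) (hg : SmB L b' g) : SmB L (2 * (b + b') + 1) (fun z => f z - g z) := by
  obtain ⟨e, a, P, he, ha, hP, h1⟩ := hf
  obtain ⟨e', a', P', he', ha', hP', h1'⟩ := hg
  refine ⟨e + e', a + a', MvPolynomial.C (4 ^ a') * MvPolynomial.X 1 ^ e' * P -
    MvPolynomial.C (4 ^ a) * MvPolynomial.X 1 ^ e * P', by omega, by omega, ?_, fun z hz => ?_⟩
  · have h2 := (((Bd.C (σ := Fin 4) (4 ^ a')).mul ((Bd.X 1).pow e')).mul hP).sub
      (((Bd.C (σ := Fin 4) (4 ^ a)).mul ((Bd.X 1).pow e)).mul hP')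
    refine h2.mono (max_le (by omega) (by omega)) ?_
    rw [one_pow, one_pow, mul_one, mul_one, Int.natAbs_pow, Int.natAbs_pow]
    have e1 : (4 : ℤ).natAbs = 2 ^ 2 := rfl
    rw [e1, ← pow_mul, ← pow_mul, ← pow_add, ← pow_add]
    have e2 : 2 ^ (2 * a' + b) ≤ 2 ^ (2 * (b + b')) := Nat.pow_le_pow_right (by norm_num) (by omega)
    have e3 : 2 ^ (2 * a + b') ≤ 2 ^ (2 * (b + b')) := Nat.pow_le_pow_right (by norm_num) (by omega)
    rw [pow_succ]
    omega
  · simp only [map_sub, map_mul, map_pow, MvPolynomial.aeval_X, ← h1 z hz, ← h1' z hz, map_ofNat,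
      Matrix.cons_val_one, Matrix.cons_val_zero]
    ring

theorem SmB.pow (hf : SmB L b f) (k : ℕ) : SmB L (k * b) (fun z => f z ^ k) := by
  induction k with
  | zero =>
    refine ⟨0, 0, 1, le_rfl.trans (Nat.zero_le _), Nat.zero_le _, ?_, fun z _ => by simp⟩
    have := Bd.C (σ := Fin 4) 1
    rw [MvPolynomial.C_1] at this
    exact this.mono (Nat.zero_le _) (Nat.one_le_two_pow)
  | succ k ih =>
    have := (ih.mul hf).congr (g := fun z => f z ^ (k + 1)) fun z _ => pow_succ _ _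
    rwa [← Nat.succ_mul] at this

theorem SmB.div_wp' (hg : SmB L b g) (k : ℕ)
    (h : ∀ z, 2 * z ∉ L.lattice → f z * ℘'[L] z ^ k = g z) : SmB L (b + k) f := by
  obtain ⟨e, a, P, he, ha, hP, h1⟩ := hg
  refine ⟨k + e, a, P, by omega, by omega,
    hP.mono (by omega) (Nat.pow_le_pow_right (by norm_num) (by omega)), fun z hz => ?_⟩
  rw [← h1 z hz, ← h z hz]
  ring

theorem smB_three (L : PeriodPair) : SmB L 16 (psi L 3) := by
  refine ⟨0, 2, MvPolynomial.C 48 * MvPolynomial.X 0 * MvPolynomial.X 1 ^ 2 -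
    (MvPolynomial.C 12 * MvPolynomial.X 0 ^ 2 - MvPolynomial.X 2) ^ 2, by norm_num, by norm_num, ?_,
    fun z hz => ?_⟩
  · have h := (((Bd.C (σ := Fin 4) 48).mul (Bd.X 0)).mul ((Bd.X 1).pow 2)).sub
      ((((Bd.C (σ := Fin 4) 12).mul ((Bd.X 0).pow 2)).sub (Bd.X 2)).pow 2)
    exact h.mono (by norm_num) (by norm_num)
  · have h5 := wp'_ne_zero L hz
    rw [psi_three hz, wp_two L hz]
    simp only [map_sub, map_mul, map_pow, MvPolynomial.aeval_X, MvPolynomial.aeval_C, map_ofNat,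
      Matrix.cons_val_zero, Matrix.cons_val_one, Matrix.cons_val]
    field_simp
    ring

theorem smB_four (L : PeriodPair) : SmB L 16 (psi L 4) := by
  refine ⟨0, 3, (MvPolynomial.C 64 * MvPolynomial.X 1 ^ 4 -
    MvPolynomial.C 96 * (MvPolynomial.C 12 * MvPolynomial.X 0 ^ 2 - MvPolynomial.X 2) *
      MvPolynomial.X 0 * MvPolynomial.X 1 ^ 2 - MvPolynomial.C (-2) *
    (MvPolynomial.C 12 * MvPolynomial.X 0 ^ 2 - MvPolynomial.X 2) ^ 3) * MvPolynomial.X 1,
    by norm_num, by norm_num, ?_, fun z hz => ?_⟩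
  · have hT := ((Bd.C (σ := Fin 4) 12).mul ((Bd.X 0).pow 2)).sub (Bd.X 2)
    have h := ((((Bd.C (σ := Fin 4) 64).mul ((Bd.X 1).pow 4)).sub
      ((((Bd.C (σ := Fin 4) 96).mul hT).mul (Bd.X 0)).mul ((Bd.X 1).pow 2))).sub
      ((Bd.C (σ := Fin 4) (-2)).mul (hT.pow 3))).mul (Bd.X 1)
    exact h.mono (by norm_num) (by norm_num)
  · have h5 := wp'_ne_zero L hz
    rw [psi_four hz, wp'_two L hz]
    simp only [map_sub, map_mul, map_pow, MvPolynomial.aeval_X, MvPolynomial.aeval_C, map_ofNat, map_neg,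
      Matrix.cons_val_zero, Matrix.cons_val_one, Matrix.cons_val]
    field_simp
    ring

theorem smB_psi (L : PeriodPair) (m : ℕ) : SmB L (16 * 32 ^ m) (psi L m) := by
  induction m using Nat.strong_induction_on with
  | _ m ih =>
    have hcases : m = 0 ∨ m = 1 ∨ m = 2 ∨ m = 3 ∨ m = 4 ∨ (∃ j, m = 2 * j + 5) ∨ (∃ j, m = 2 * j + 6) := by
      rcases Nat.even_or_odd' m with ⟨k, hk | hk⟩
      · by_cases h : k < 3
        · omega
        · right; right; right; right; right; right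
          exact ⟨k - 3, by omega⟩
      · by_cases h : k < 2
        · omega
        · right; right; right; right; right; left
          exact ⟨k - 2, by omega⟩
    rcases hcases with rfl | rfl | rfl | rfl | rfl | ⟨j, rfl⟩ | ⟨j, rfl⟩
    · refine ⟨0, 0, 0, Nat.zero_le _, Nat.zero_le _, Bd.zero, fun z _ => ?_⟩
      rw [psi_zero]; simp
    · have h1 : SmB L 0 (fun _ => 1) := by
        refine ⟨0, 0, MvPolynomial.C 1, le_rfl, le_rfl, (Bd.C 1).mono le_rfl le_rfl, fun z _ => by simp⟩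
      exact (h1.congr fun z hz => psi_one (two_mul_notMem_of L hz)).mono (Nat.zero_le _)
    · have h1 : SmB L 1 (fun z => - ℘'[L] z) := by
        refine ⟨0, 0, -MvPolynomial.X 1, by norm_num, by norm_num, (Bd.X 1).neg.mono le_rfl (by norm_num),
          fun z _ => by simp⟩
      exact (h1.congr fun z hz => psi_two (two_mul_notMem_of L hz)).mono (by norm_num)
    · exact (smB_three L).mono (by norm_num)
    · exact (smB_four L).mono (by norm_num)
    · have hB : ∀ i ≤ 2 * j + 4, SmB L (16 * 32 ^ (2 * j + 4)) (psi L i) := fun i hi =>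
        (ih i (by omega)).mono (Nat.mul_le_mul_left _ (Nat.pow_le_pow_right (by norm_num) hi))
      have hpos : 1 ≤ 32 ^ (2 * j + 4) := Nat.one_le_pow _ _ (by norm_num)
      have h4 := ((hB (j + 4) (by omega)).mul ((hB (j + 2) (by omega)).pow 3)).sub
        ((hB (j + 1) (by omega)).mul ((hB (j + 3) (by omega)).pow 3))
      refine (h4.congr fun z hz => psi_odd (two_mul_notMem_of L hz) j).mono ?_
      rw [show 2 * j + 5 = (2 * j + 4) + 1 from rfl, pow_succ _ (2 * j + 4)]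
      generalize 32 ^ (2 * j + 4) = B at *
      omega
    · have hB : ∀ i ≤ 2 * j + 5, SmB L (16 * 32 ^ (2 * j + 5)) (psi L i) := fun i hi =>
        (ih i (by omega)).mono (Nat.mul_le_mul_left _ (Nat.pow_le_pow_right (by norm_num) hi))
      have hpos : 1 ≤ 32 ^ (2 * j + 5) := Nat.one_le_pow _ _ (by norm_num)
      have h4 := (hB (j + 3) (by omega)).mul (((hB (j + 1) (by omega)).mul ((hB (j + 4) (by omega)).pow 2)).sub
        ((hB (j + 5) (by omega)).mul ((hB (j + 2) (by omega)).pow 2)))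
      refine (h4.div_wp' 1 fun z hz => ?_).mono ?_
      · rw [pow_one]
        exact psi_even (two_mul_notMem_of L hz) j
      · rw [show 2 * j + 6 = (2 * j + 5) + 1 from rfl, pow_succ _ (2 * j + 5)]
        generalize 32 ^ (2 * j + 5) = B at *
        omega

open Pool.Agent.R347.LW (tow) in
theorem size_le (m b : ℕ) (hb : b ≤ 11 * (16 * 32 ^ m)) : b ≤ tow 3 (m + 3) ∧ 2 ^ b ≤ tow 3 (m + 3) := by
  have h1 : 8 + 5 * m ≤ 2 ^ (m + 3) := by
    have : m + 1 ≤ 2 ^ m := Nat.lt_two_pow_self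
    rw [pow_add]
    omega
  have h2 : b ≤ 2 ^ (2 ^ (m + 3)) := by
    refine le_trans ?_ (Nat.pow_le_pow_right (by norm_num) h1)
    rw [pow_add, pow_mul, show 2 ^ 5 = 32 by norm_num]
    omega
  have h3 : tow 3 (m + 3) = 2 ^ 2 ^ 2 ^ (m + 3) := rfl
  rw [h3]
  exact ⟨h2.trans Nat.lt_two_pow_self.le, Nat.pow_le_pow_right (by norm_num) h2⟩

/-- **DIV1** -/
theorem div1 : Pool.Agent.P8H10.ET.S_DIV1 := by
  refine ⟨3, fun L m => ?_⟩
  obtain ⟨e, a, P, he, ha, hP, h⟩ := smB_psi L m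
  obtain ⟨h1, h2⟩ := size_le m (16 * 32 ^ m) (by omega)
  have hP' := hP.mono h1 h2
  exact ⟨e, a, P, ⟨hP'.1, hP'.abs_sum⟩, h⟩

/-- **DIV2**, without its hypothesis -/
theorem div2' : Pool.Agent.P8H10.ET.S_DIV2 := by
  refine ⟨3, fun L m hm => ?_⟩
  obtain ⟨e, a, P, he, ha, hP, h⟩ := smB_psi L m
  obtain ⟨A, B, hA, hB, hAB⟩ := exists_AB P _ _ hP
  set b := 16 * 32 ^ m with hb
  have hb1 : 1 ≤ b := by
    have : 1 ≤ 32 ^ m := Nat.one_le_pow _ _ (by norm_num)
    omega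
  have hsq : ∀ z, z ∉ L.lattice → ℘'[L] z ^ 2 = 4 * ℘[L] z ^ 3 - L.g₂ * ℘[L] z - L.g₃ :=
    fun z hz => L.derivWeierstrassP_sq z hz
  have hval : ∀ z, z ∉ L.lattice → aeval ![℘[L] z, L.g₂, L.g₃] (A ^ 2 - B ^ 2 * cub) =
      (aeval ![℘[L] z, L.g₂, L.g₃] A + aeval ![℘[L] z, L.g₂, L.g₃] B * ℘'[L] z) *
      (aeval ![℘[L] z, L.g₂, L.g₃] A - aeval ![℘[L] z, L.g₂, L.g₃] B * ℘'[L] z) := by
    intro z hz
    rw [map_sub, map_mul, map_pow, map_pow, cub_val, ← hsq z hz]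
    ring
  refine ⟨A ^ 2 - B ^ 2 * cub, ?_, fun t ht h2t => ?_, ?_⟩
  · have hF := (hA.pow 2).sub ((hB.pow 2).mul cub_bd)
    obtain ⟨h1, h2⟩ := size_le m (11 * b) le_rfl
    have hF' := hF.mono (d' := Pool.Agent.R347.LW.tow 3 (m + 3)) (N' := Pool.Agent.R347.LW.tow 3 (m + 3))
      (le_trans (max_le (by omega) (by omega)) h1) (le_trans ?_ h2)
    · exact ⟨hF'.1, hF'.abs_sum⟩
    · have e1 : 2 ^ b * 6 ^ b ≤ 2 ^ (4 * b) := by
        clear_value b
        rw [pow_mul 2 4 b, ← mul_pow]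
        exact Nat.pow_le_pow_left (by norm_num) _
      have e2 : (2 ^ b * 6 ^ b) ^ 2 ≤ 2 ^ (8 * b) := by
        have := Nat.pow_le_pow_left e1 2
        rwa [← pow_mul, show 4 * b * 2 = 8 * b by ring] at this
      have e3 : 2 ^ (8 * b) * 8 ≤ 2 ^ (11 * b) := by
        rw [show (8 : ℕ) = 2 ^ 3 by norm_num, ← pow_add]
        exact Nat.pow_le_pow_right (by norm_num) (by omega)
      omega
  · have ht0 := two_mul_notMem_of L h2t
    have h1 := h t h2t
    rw [psi, sigma_coe_eq_zero L ht, zero_div, mul_zero, zero_mul, hAB _ _ _ _ (hsq t ht0)] at h1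
    rw [hval t ht0, ← h1, zero_mul]
  · obtain ⟨z, hz2, hzm⟩ := exists_generic L m hm
    have hz := two_mul_notMem_of L hz2
    have hz2' : 2 * (-z) ∉ L.lattice := by
      intro h
      apply hz2
      have := neg_mem h
      rwa [show -(2 * -z) = 2 * z by ring] at this
    have hz' := two_mul_notMem_of L hz2'
    have key : ∀ w, 2 * w ∉ L.lattice → (m : ℂ) * w ∉ L.lattice →
        aeval ![℘[L] w, L.g₂, L.g₃] A + aeval ![℘[L] w, L.g₂, L.g₃] B * ℘'[L] w ≠ 0 := by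
      intro w hw hwm
      have hw0 := two_mul_notMem_of L hw
      rw [← hAB _ _ _ _ (hsq w hw0), ← h w hw]
      refine mul_ne_zero (mul_ne_zero (pow_ne_zero _ (by norm_num)) ?_) (pow_ne_zero _ (wp'_ne_zero L hw))
      rw [psi]
      exact div_ne_zero (sigma_ne_zero L hwm) (pow_ne_zero _ (sigma_ne_zero L hw0))
    refine ⟨℘[L] z, ?_⟩
    rw [hval z hz]
    refine mul_ne_zero (key z hz2 hzm) ?_
    have h7 := key (-z) hz2' (by
      intro h8
      apply hzm
      have := neg_mem h8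
      rwa [show -((m : ℂ) * -z) = m * z by ring] at this)
    rw [L.weierstrassP_neg, L.derivWeierstrassP_neg] at h7
    rwa [mul_neg, ← sub_eq_add_neg] at h7

/-- **DIV2** -/
theorem div2 : Pool.Agent.P8H10.ET.S_DIV1 → Pool.Agent.P8H10.ET.S_DIV2 := fun _ => div2'

end Pool.Agent.P8H80.ET
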